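import Mathlib

/-!
# Cube products of sign functions on elementary abelian 2-groups
-/

set_option autoImplicit false
set_option linter.unusedSectionVars false

open Finset

namespace Pool.Agent.K3h39.HT

universe u

variable {V : Type u} [AddCommGroup V] [Module (ZMod 2) V]

lemma add_self' (u : V) : u + u = 0 := by
  have h : (2 : ZMod 2) • u = u + u := by
    rw [two_smul]
  rw [← h]
  have : (2 : ZMod 2) = 0 := rfl
  rw [this, zero_smul]

/-- The product of the signs over the cube with vertex `a` and directions `b`. -/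
def D (f : V → ℤˣ) : ∀ m : ℕ, V → (Fin m → V) → ℤˣ
  | 0, a, _ => f a
  | m + 1, a, b => D f m a (Fin.init b) * D f m (a + b (Fin.last m)) (Fin.init b)

/-- The number of vertices of the cube with sign `-1`. -/
def cnt (f : V → ℤˣ) : ∀ m : ℕ, V → (Fin m → V) → ℕ
  | 0, a, _ => if f a = -1 then 1 else 0
  | m + 1, a, b => cnt f m a (Fin.init b) + cnt f m (a + b (Fin.last m)) (Fin.init b)

lemma D_snoc (f : V → ℤˣ) (m : ℕ) (a : V) (b : Fin m → V) (u : V) :
    D f (m + 1) a (Fin.snoc b u) = D f m a b * D f m (a + u) b := by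
  simp [D, Fin.init_snoc, Fin.snoc_last]

lemma D_trans (f : V → ℤˣ) (m : ℕ) : ∀ (a : V) (b : Fin m → V) (i : Fin m),
    D f m (a + b i) b = D f m a b := by
  induction m with
  | zero => intro a b i; exact i.elim0
  | succ m ih =>
    intro a b i
    refine Fin.lastCases ?_ (fun j => ?_) i
    · simp only [D]
      rw [add_assoc, add_self', add_zero, mul_comm]
    · simp only [D]
      have e1 : b (Fin.castSucc j) = Fin.init b j := rfl
      rw [e1, ih, add_right_comm, ih]

lemma D_span (f : V → ℤˣ) (m : ℕ) (b : Fin m → V) (u : V)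
    (hu : u ∈ Submodule.span (ZMod 2) (Set.range b)) : ∀ a, D f m (a + u) b = D f m a b := by
  induction hu using Submodule.span_induction with
  | mem x hx =>
    obtain ⟨i, rfl⟩ := hx
    exact fun a => D_trans f m a b i
  | zero => intro a; rw [add_zero]
  | add x y _ _ hx hy => intro a; rw [← add_assoc, hy, hx]
  | smul c x _ hx =>
    intro a
    have hc : c = 0 ∨ c = 1 := by
      revert c; decide
    rcases hc with rfl | rfl
    · rw [zero_smul, add_zero]
    · rw [one_smul]; exact hx a

lemma D_dep (f : V → ℤˣ) (m : ℕ) : ∀ (a : V) (b : Fin m → V),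
    ¬ LinearIndependent (ZMod 2) b → D f m a b = 1 := by
  induction m with
  | zero =>
    intro a b h
    exact absurd (linearIndependent_empty_type (R := ZMod 2) (v := b)) h
  | succ m ih =>
    intro a b h
    have hb : b = Fin.snoc (Fin.init b) (b (Fin.last m)) := (Fin.snoc_init_self b).symm
    rw [hb] at h ⊢
    rw [D_snoc]
    by_cases hi : LinearIndependent (ZMod 2) (Fin.init b)
    · have hm : b (Fin.last m) ∈ Submodule.span (ZMod 2) (Set.range (Fin.init b)) := by
        by_contra hc
        exact h (linearIndependent_finSnoc.mpr ⟨hi, hc⟩)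
      rw [D_span f m _ _ hm, Int.units_mul_self]
    · rw [ih _ _ hi, ih _ _ hi, mul_one]

lemma cnt_pos (f : V → ℤˣ) (m : ℕ) : ∀ (a : V) (b : Fin m → V),
    D f m a b = -1 → 1 ≤ cnt f m a b := by
  induction m with
  | zero => intro a b h; simp only [D] at h; simp [cnt, h]
  | succ m ih =>
    intro a b h
    simp only [D] at h
    simp only [cnt]
    rcases Int.units_eq_one_or (D f m a (Fin.init b)) with h1 | h1
    · rw [h1, one_mul] at h
      have := ih _ _ h
      omega
    · have := ih _ _ h1
      omega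

variable [Fintype V]

lemma sum_cnt (f : V → ℤˣ) (m : ℕ) : ∀ (b : Fin m → V),
    ∑ a, cnt f m a b = 2 ^ m * ∑ a, (if f a = -1 then 1 else 0) := by
  induction m with
  | zero => intro b; simp [cnt]
  | succ m ih =>
    intro b
    simp only [cnt, Finset.sum_add_distrib]
    rw [ih, Fintype.sum_equiv (Equiv.addRight (b (Fin.last m)))
      (fun a => cnt f m (a + b (Fin.last m)) (Fin.init b)) (fun a => cnt f m a (Fin.init b))
      (fun a => by simp), ih]
    ring

lemma rm (f : V → ℤˣ) (m : ℕ) (h : ∀ a b, D f (m + 1) a b = 1) :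
    (∀ a, f a = 1) ∨ Fintype.card V ≤ 2 ^ m * ∑ a, (if f a = -1 then 1 else 0) := by
  induction m with
  | zero =>
    by_cases h1 : ∀ a, f a = 1
    · exact Or.inl h1
    · push Not at h1
      obtain ⟨a, ha⟩ := h1
      right
      have ha' : f a = -1 := (Int.units_eq_one_or (f a)).resolve_left ha
      have h2 : ∀ x, f x = -1 := by
        intro x
        have := h a (fun _ => x - a)
        simp only [D] at this
        rw [ha', add_sub_cancel] at this
        rcases Int.units_eq_one_or (f x) with h3 | h3
        · rw [h3] at this; exact absurd this (by decide)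
        · exact h3
      simp [h2]
  | succ m ih =>
    by_cases h1 : ∀ a b, D f (m + 1) a b = 1
    · rcases ih h1 with h2 | h2
      · exact Or.inl h2
      · right
        refine h2.trans (Nat.mul_le_mul_right _ (Nat.pow_le_pow_right (by norm_num) (by omega)))
    · push Not at h1
      obtain ⟨a, b, hab⟩ := h1
      right
      have hab' := (Int.units_eq_one_or _).resolve_left hab
      have h2 : ∀ x, D f (m + 1) x b = -1 := by
        intro x
        have := h a (Fin.snoc b (x - a))
        rw [D_snoc, add_sub_cancel, hab'] at this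
        rcases Int.units_eq_one_or (D f (m + 1) x b) with h3 | h3
        · rw [h3] at this; exact absurd this (by decide)
        · exact h3
      rw [← sum_cnt f (m + 1) b]
      calc Fintype.card V = ∑ _a : V, 1 := by simp
        _ ≤ _ := Finset.sum_le_sum fun x _ => cnt_pos f _ _ _ (h2 x)

/-- The sum of the cube products. -/
def S (f : V → ℤˣ) (m : ℕ) : ℚ := ∑ b : Fin m → V, ∑ a, ((D f m a b : ℤ) : ℚ)

lemma S_succ (f : V → ℤˣ) (m : ℕ) :
    S f (m + 1) = ∑ b : Fin m → V, (∑ a, ((D f m a b : ℤ) : ℚ)) ^ 2 := by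
  unfold S
  rw [← (Fin.snocEquiv (fun _ : Fin (m + 1) => V)).sum_comp, Fintype.sum_prod_type, Finset.sum_comm]
  refine Finset.sum_congr rfl fun b _ => ?_
  have e : ∀ u : V, ∑ a, ((D f (m + 1) a (Fin.snocEquiv (fun _ : Fin (m + 1) => V) (u, b)) : ℤ) : ℚ)
      = ∑ a, ((D f m a b : ℤ) : ℚ) * ((D f m (a + u) b : ℤ) : ℚ) := by
    intro u
    refine Finset.sum_congr rfl fun a _ => ?_
    have : (Fin.snocEquiv (fun _ : Fin (m + 1) => V) (u, b) : Fin (m + 1) → V) = Fin.snoc b u := rfl
    rw [this, D_snoc]
    push_cast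
    rfl
  rw [Finset.sum_congr rfl fun u _ => e u, Finset.sum_comm, sq, Finset.sum_mul]
  refine Finset.sum_congr rfl fun a _ => ?_
  rw [← Finset.mul_sum]
  congr 1
  exact Fintype.sum_equiv (Equiv.addLeft a) _ _ (fun u => rfl)

lemma S_le (f : V → ℤˣ) (m : ℕ) : (S f m) ^ 2 ≤ (Fintype.card V : ℚ) ^ m * S f (m + 1) := by
  rw [S_succ]
  have h := sq_sum_le_card_mul_sum_sq (s := (Finset.univ : Finset (Fin m → V)))
    (f := fun b => ∑ a, ((D f m a b : ℤ) : ℚ))
  simpa [S, Finset.card_univ] using h

end Pool.Agent.K3h39.HT
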