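import Pool.Agent.K3h39.HT.Comb

/-!
# Parity over multiquadratic fields for the quadratic twists of an abelian variety
-/

set_option autoImplicit false
set_option linter.unusedSectionVars false

open Finset

namespace Pool.Agent.K3h39.HT

universe u

/-- Ranks and root numbers of the quadratic twists of an abelian variety `A` over a number field
`k`. Here `V` is a finite group of square classes of `k`, written additively, that is, a vector
space over the field with two elements. For `a` in `V` let `A_a` be the quadratic twist of `A` by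
`a`, and for a subspace `U` of `V` let `K_U = k(√u : u ∈ U)`, a multiquadratic extension of `k` of
degree `|U|`. Then `rank a U` is the rank of `A_a(K_U)` and `root a U` is the product of the local
root numbers of `A_a` over all places of `K_U`. For `u ∉ U` the Weil restriction of `A_a` from
`K_{U + u} = K_U(√u)` to `K_U` is isogenous to `A_a × A_{a + u}`, and this gives `rank_sup` and
`root_sup`. -/
structure TwistData (V : Type u) [AddCommGroup V] [Module (ZMod 2) V] where
  /-- the rank of `A_a(K_U)` -/
  rank : V → Submodule (ZMod 2) V → ℕ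
  /-- the product of the local root numbers of `A_a` over all places of `K_U` -/
  root : V → Submodule (ZMod 2) V → ℤˣ
  rank_sup (a : V) (U : Submodule (ZMod 2) V) (u : V) (hu : u ∉ U) :
    rank a (U ⊔ Submodule.span (ZMod 2) {u}) = rank a U + rank (a + u) U
  root_sup (a : V) (U : Submodule (ZMod 2) V) (u : V) (hu : u ∉ U) :
    root a (U ⊔ Submodule.span (ZMod 2) {u}) = root a U * root (a + u) U

variable {V : Type u} [AddCommGroup V] [Module (ZMod 2) V]

/-- The parity conjecture for `A_a` over `K_U`. -/
def Parity (T : TwistData V) (a : V) (U : Submodule (ZMod 2) V) : Prop :=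
  (-1 : ℤˣ) ^ T.rank a U = T.root a U

/-- The parity conjecture fails for `A_a` over the field `k(√b_1, …, √b_m)` of degree `2 ^ m`. -/
def Fails (T : TwistData V) (m : ℕ) (x : V × (Fin m → V)) : Prop :=
  LinearIndependent (ZMod 2) x.2 ∧ ¬ Parity T x.1 (Submodule.span (ZMod 2) (Set.range x.2))

/-- The parity conjecture holds for `A_a` over the field `k(√b_1, …, √b_m)` of degree `2 ^ m`. -/
def Holds (T : TwistData V) (m : ℕ) (x : V × (Fin m → V)) : Prop :=
  LinearIndependent (ZMod 2) x.2 ∧ Parity T x.1 (Submodule.span (ZMod 2) (Set.range x.2))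

/-- The number of the `(a, b_1, …, b_m)` for which the parity conjecture fails, divided by
`|V| ^ (m + 1)`. -/
noncomputable def failShare (T : TwistData V) (m : ℕ) : ℚ :=
  (Nat.card {x : V × (Fin m → V) // Fails T m x} : ℚ) / (Nat.card V : ℚ) ^ (m + 1)

/-- The number of the `(a, b_1, …, b_m)` for which the parity conjecture holds, divided by
`|V| ^ (m + 1)`. -/
noncomputable def holdShare (T : TwistData V) (m : ℕ) : ℚ :=
  (Nat.card {x : V × (Fin m → V) // Holds T m x} : ℚ) / (Nat.card V : ℚ) ^ (m + 1)

/-- the sign of the failure -/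
def del (T : TwistData V) (a : V) (U : Submodule (ZMod 2) V) : ℤˣ :=
  (-1 : ℤˣ) ^ T.rank a U * T.root a U

lemma parity_iff (T : TwistData V) (a : V) (U : Submodule (ZMod 2) V) :
    Parity T a U ↔ del T a U = 1 := by
  unfold Parity del
  constructor
  · intro h; rw [h, Int.units_mul_self]
  · intro h
    have := congrArg (fun z => z * T.root a U) h
    simpa [mul_assoc, Int.units_mul_self] using this

lemma del_span (T : TwistData V) (m : ℕ) : ∀ (a : V) (b : Fin m → V),
    LinearIndependent (ZMod 2) b →
    del T a (Submodule.span (ZMod 2) (Set.range b)) = D (fun x => del T x ⊥) m a b := by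
  induction m with
  | zero => intro a b _; simp [D]
  | succ m ih =>
    intro a b h
    have hb : b = Fin.snoc (Fin.init b) (b (Fin.last m)) := (Fin.snoc_init_self b).symm
    rw [hb] at h
    obtain ⟨hi, hm⟩ := linearIndependent_finSnoc.mp h
    have hr : Submodule.span (ZMod 2) (Set.range b) =
        Submodule.span (ZMod 2) (Set.range (Fin.init b)) ⊔
          Submodule.span (ZMod 2) {b (Fin.last m)} := by
      rw [← Submodule.span_union]
      congr 1
      ext x
      constructor
      · rintro ⟨i, rfl⟩
        refine Fin.lastCases ?_ (fun j => ?_) i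
        · exact Or.inr rfl
        · exact Or.inl ⟨j, rfl⟩
      · rintro (⟨j, rfl⟩ | hx)
        · exact ⟨Fin.castSucc j, rfl⟩
        · exact ⟨Fin.last m, hx.symm⟩
    rw [hr]
    simp only [D]
    rw [← ih _ _ hi, ← ih _ _ hi]
    unfold del
    rw [T.rank_sup _ _ _ hm, T.root_sup _ _ _ hm, pow_add]
    exact mul_mul_mul_comm _ _ _ _

lemma fails_iff (T : TwistData V) (m : ℕ) (x : V × (Fin m → V)) :
    Fails T m x ↔ D (fun x => del T x ⊥) m x.1 x.2 = -1 := by
  unfold Fails
  rw [parity_iff]
  constructor
  · rintro ⟨h1, h2⟩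
    rw [del_span T m _ _ h1] at h2
    exact (Int.units_eq_one_or _).resolve_left h2
  · intro h
    have hi : LinearIndependent (ZMod 2) x.2 := by
      by_contra hc
      rw [D_dep _ _ _ _ hc] at h
      exact absurd h (by decide)
    refine ⟨hi, ?_⟩
    rw [del_span T m _ _ hi, h]
    decide

variable [Fintype V]

lemma S_eq (T : TwistData V) (m : ℕ) :
    S (fun x => del T x ⊥) m =
      (Fintype.card V : ℚ) ^ (m + 1) * (1 - 2 * failShare T m) := by
  classical
  have hV : (Fintype.card V : ℚ) ≠ 0 := by
    have : 0 < Fintype.card V := Fintype.card_pos_iff.mpr ⟨0⟩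
    positivity
  have h1 : (Nat.card {x : V × (Fin m → V) // Fails T m x} : ℚ) =
      ∑ b : Fin m → V, ∑ a : V,
        (if D (fun x => del T x ⊥) m a b = -1 then (1 : ℚ) else 0) := by
    rw [Nat.card_eq_fintype_card, Fintype.card_subtype, Finset.sum_comm,
      ← Fintype.sum_prod_type (f := fun x : V × (Fin m → V) =>
        (if D (fun x => del T x ⊥) m x.1 x.2 = -1 then (1 : ℚ) else 0)),
      Finset.sum_boole]
    congr 2
    ext x
    simp only [Finset.mem_filter, Finset.mem_univ, true_and]
    exact fails_iff T m x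
  have h2 : S (fun x => del T x ⊥) m = (Fintype.card V : ℚ) ^ (m + 1) -
      2 * (Nat.card {x : V × (Fin m → V) // Fails T m x} : ℚ) := by
    rw [h1]
    have h3 : (Fintype.card V : ℚ) ^ (m + 1) = ∑ _b : Fin m → V, ∑ _a : V, (1 : ℚ) := by
      simp [pow_succ]
    rw [h3, S, Finset.mul_sum, ← Finset.sum_sub_distrib]
    refine Finset.sum_congr rfl fun b _ => ?_
    rw [Finset.mul_sum, ← Finset.sum_sub_distrib]
    refine Finset.sum_congr rfl fun a _ => ?_
    rcases Int.units_eq_one_or (D (fun x => del T x ⊥) m a b) with h | h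
    · rw [h, if_neg (by decide)]; norm_num
    · rw [h, if_pos rfl]; norm_num
  rw [h2, failShare, Nat.card_eq_fintype_card (α := V)]
  field_simp

theorem share_succ (T : TwistData V) (m : ℕ) :
    (1 - 2 * failShare T m) ^ 2 ≤ 1 - 2 * failShare T (m + 1) := by
  have hV : (0 : ℚ) < (Fintype.card V : ℚ) := by
    have : 0 < Fintype.card V := Fintype.card_pos_iff.mpr ⟨0⟩
    exact_mod_cast this
  have h := S_le (fun x => del T x ⊥) m
  rw [S_eq, S_eq] at h
  have e1 : ((Fintype.card V : ℚ) ^ (m + 1) * (1 - 2 * failShare T m)) ^ 2 =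
      (Fintype.card V : ℚ) ^ (2 * m + 2) * (1 - 2 * failShare T m) ^ 2 := by ring
  have e2 : (Fintype.card V : ℚ) ^ m * ((Fintype.card V : ℚ) ^ (m + 1 + 1) *
      (1 - 2 * failShare T (m + 1))) =
      (Fintype.card V : ℚ) ^ (2 * m + 2) * (1 - 2 * failShare T (m + 1)) := by ring
  rw [e1, e2] at h
  exact le_of_mul_le_mul_left h (by positivity)

theorem share_pow (T : TwistData V) (m : ℕ) :
    (1 - 2 * failShare T 0) ^ (2 ^ m) ≤ 1 - 2 * failShare T m := by
  induction m with
  | zero => simp
  | succ m ih =>
    refine le_trans ?_ (share_succ T m)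
    rw [pow_succ 2 m, pow_mul]
    rcases Nat.eq_zero_or_pos m with rfl | hm
    · simp
    · have h0 : 0 ≤ (1 - 2 * failShare T 0) ^ (2 ^ m) := by
        obtain ⟨k, rfl⟩ : ∃ k, m = k + 1 := ⟨m - 1, by omega⟩
        rw [pow_succ 2 k, pow_mul]
        positivity
      exact pow_le_pow_left₀ h0 ih 2

theorem rm_share (T : TwistData V) (m : ℕ)
    (h : ∀ x : V × (Fin (m + 1) → V), ¬ Fails T (m + 1) x) :
    (∀ a, Parity T a ⊥) ∨ (1 / 2 : ℚ) ^ m ≤ failShare T 0 := by
  classical
  have hV : (0 : ℚ) < (Fintype.card V : ℚ) := by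
    have : 0 < Fintype.card V := Fintype.card_pos_iff.mpr ⟨0⟩
    exact_mod_cast this
  have h1 : ∀ a b, D (fun x => del T x ⊥) (m + 1) a b = 1 := by
    intro a b
    have := h (a, b)
    rw [fails_iff] at this
    exact (Int.units_eq_one_or _).resolve_right this
  rcases rm _ m h1 with h2 | h2
  · exact Or.inl fun a => (parity_iff T a ⊥).mpr (h2 a)
  · right
    have h3 := S_eq T 0
    have h4 : S (fun x => del T x ⊥) 0 = (Fintype.card V : ℚ) -
        2 * ∑ a, (if del T a ⊥ = -1 then (1 : ℚ) else 0) := by
      have h5 : (Fintype.card V : ℚ) = ∑ _a : V, (1 : ℚ) := by simp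
      rw [h5, S, Finset.mul_sum, ← Finset.sum_sub_distrib]
      simp only [Finset.univ_unique, Finset.sum_singleton, D]
      refine Finset.sum_congr rfl fun a _ => ?_
      rcases Int.units_eq_one_or (del T a ⊥) with h | h
      · rw [h, if_neg (by decide)]; norm_num
      · rw [h, if_pos rfl]; norm_num
    have h6 : (Fintype.card V : ℚ) ≤ 2 ^ m * ∑ a, (if del T a ⊥ = -1 then (1 : ℚ) else 0) := by
      have := (Nat.cast_le (α := ℚ)).mpr h2
      push_cast at this
      exact this
    rw [h4] at h3
    have h7 : (∑ a, (if del T a ⊥ = -1 then (1 : ℚ) else 0)) =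
        (Fintype.card V : ℚ) * failShare T 0 := by
      have : (Fintype.card V : ℚ) ^ (0 + 1) = Fintype.card V := by simp
      rw [this] at h3
      linarith
    rw [h7] at h6
    have h8 : (1 : ℚ) ≤ 2 ^ m * failShare T 0 := by
      have e : (2 : ℚ) ^ m * ((Fintype.card V : ℚ) * failShare T 0) =
        (Fintype.card V : ℚ) * (2 ^ m * failShare T 0) := by ring
      rw [e] at h6
      by_contra hc
      push Not at hc
      nlinarith
    rw [one_div, inv_pow]
    rw [inv_eq_one_div, div_le_iff₀ (by positivity)]
    linarith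

/-! ### dependent families -/

lemma dep_bound (m : ℕ) : (Fintype.card V : ℚ) *
    (Nat.card {b : Fin m → V // ¬ LinearIndependent (ZMod 2) b} : ℚ) ≤
      (2 ^ m - 1) * (Fintype.card V : ℚ) ^ m := by
  classical
  have hV : (0 : ℚ) < (Fintype.card V : ℚ) := by
    have : 0 < Fintype.card V := Fintype.card_pos_iff.mpr ⟨0⟩
    exact_mod_cast this
  induction m with
  | zero =>
    have : Nat.card {b : Fin 0 → V // ¬ LinearIndependent (ZMod 2) b} = 0 := by
      rw [Nat.card_eq_zero]
      left
      exact ⟨fun b => b.2 (linearIndependent_empty_type (R := ZMod 2) (v := b.1))⟩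
    rw [this]; simp
  | succ m ih =>
    have hspan : ∀ b : Fin m → V,
        (Nat.card (Submodule.span (ZMod 2) (Set.range b)) : ℚ) ≤ 2 ^ m := by
      intro b
      have h1 : Nat.card (Submodule.span (ZMod 2) (Set.range b)) =
          Nat.card (ZMod 2) ^ Module.finrank (ZMod 2) (Submodule.span (ZMod 2) (Set.range b)) :=
        Module.natCard_eq_pow_finrank
      have h2 : Module.finrank (ZMod 2) (Submodule.span (ZMod 2) (Set.range b)) ≤ m := by
        have := finrank_range_le_card (R := ZMod 2) b
        simpa [Set.finrank] using this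
      rw [h1, Nat.card_zmod]
      push_cast
      exact pow_le_pow_right₀ (by norm_num) h2
    have h3 : (Nat.card {b : Fin (m + 1) → V // ¬ LinearIndependent (ZMod 2) b} : ℚ) ≤
        (Fintype.card V : ℚ) *
          (Nat.card {b : Fin m → V // ¬ LinearIndependent (ZMod 2) b} : ℚ) +
        2 ^ m * (Fintype.card V : ℚ) ^ m := by
      have h4 : (Nat.card {b : Fin (m + 1) → V // ¬ LinearIndependent (ZMod 2) b} : ℚ) =
          ∑ b : Fin m → V, ∑ u : V,
            (if LinearIndependent (ZMod 2) (Fin.snoc b u : Fin (m + 1) → V) then (0 : ℚ)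
              else 1) := by
        rw [Nat.card_eq_fintype_card, Fintype.card_subtype,
          ← Fintype.sum_prod_type_right (f := fun x : V × (Fin m → V) =>
            (if LinearIndependent (ZMod 2) (Fin.snoc x.2 x.1 : Fin (m + 1) → V) then (0 : ℚ)
              else 1))]
        trans ∑ b : Fin (m + 1) → V, (if LinearIndependent (ZMod 2) b then (0 : ℚ) else 1)
        · rw [← Finset.sum_boole]
          refine Finset.sum_congr rfl fun b _ => ?_
          by_cases hb : LinearIndependent (ZMod 2) b
          · simp [hb]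
          · simp [hb]
        · exact ((Fin.snocEquiv (fun _ : Fin (m + 1) => V)).sum_comp
            (fun b : Fin (m + 1) → V =>
              (if LinearIndependent (ZMod 2) b then (0 : ℚ) else 1))).symm
      have h5 : (Nat.card {b : Fin m → V // ¬ LinearIndependent (ZMod 2) b} : ℚ) =
          ∑ b : Fin m → V, (if LinearIndependent (ZMod 2) b then (0 : ℚ) else 1) := by
        rw [Nat.card_eq_fintype_card, Fintype.card_subtype, ← Finset.sum_boole]
        refine Finset.sum_congr rfl fun b _ => ?_
        by_cases hb : LinearIndependent (ZMod 2) b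
        · simp [hb]
        · simp [hb]
      have h6 : (2 : ℚ) ^ m * (Fintype.card V : ℚ) ^ m = ∑ _b : Fin m → V, (2 : ℚ) ^ m := by
        simp [mul_comm]
      rw [h4, h5, h6, Finset.mul_sum, ← Finset.sum_add_distrib]
      refine Finset.sum_le_sum fun b _ => ?_
      by_cases hb : LinearIndependent (ZMod 2) b
      · rw [if_pos hb, mul_zero, zero_add]
        refine le_trans ?_ (hspan b)
        have h7 : (Nat.card (Submodule.span (ZMod 2) (Set.range b)) : ℚ) =
            ∑ u : V, (if u ∈ Submodule.span (ZMod 2) (Set.range b) then (1 : ℚ) else 0) := by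
          rw [Nat.card_eq_fintype_card, Finset.sum_boole]
          congr 1
          exact Fintype.card_subtype _
        rw [h7]
        refine Finset.sum_le_sum fun u _ => ?_
        by_cases hu : u ∈ Submodule.span (ZMod 2) (Set.range b)
        · rw [if_pos hu]; split_ifs <;> norm_num
        · rw [if_neg hu, if_pos (linearIndependent_finSnoc.mpr ⟨hb, hu⟩)]
      · rw [if_neg hb, mul_one]
        have h8 : ∑ u : V, (if LinearIndependent (ZMod 2) (Fin.snoc b u : Fin (m + 1) → V)
            then (0 : ℚ) else 1) ≤ ∑ _u : V, (1 : ℚ) :=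
          Finset.sum_le_sum fun u _ => by split_ifs <;> norm_num
        have h9 : ∑ _u : V, (1 : ℚ) = Fintype.card V := by simp
        rw [h9] at h8
        have : (0 : ℚ) ≤ 2 ^ m := by positivity
        linarith
    calc (Fintype.card V : ℚ) *
        (Nat.card {b : Fin (m + 1) → V // ¬ LinearIndependent (ZMod 2) b} : ℚ)
        ≤ (Fintype.card V : ℚ) * ((Fintype.card V : ℚ) *
          (Nat.card {b : Fin m → V // ¬ LinearIndependent (ZMod 2) b} : ℚ) +
        2 ^ m * (Fintype.card V : ℚ) ^ m) := mul_le_mul_of_nonneg_left h3 hV.le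
      _ ≤ (Fintype.card V : ℚ) * ((2 ^ m - 1) * (Fintype.card V : ℚ) ^ m +
        2 ^ m * (Fintype.card V : ℚ) ^ m) := by
          refine mul_le_mul_of_nonneg_left ?_ hV.le
          linarith
      _ = _ := by ring

theorem hold_ge (T : TwistData V) (m : ℕ) :
    1 - failShare T m - 2 ^ m / (Fintype.card V : ℚ) ≤ holdShare T m := by
  classical
  have hV : (0 : ℚ) < (Fintype.card V : ℚ) := by
    have : 0 < Fintype.card V := Fintype.card_pos_iff.mpr ⟨0⟩
    exact_mod_cast this
  have h1 : (Fintype.card V : ℚ) ^ (m + 1) =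
      (Nat.card {x : V × (Fin m → V) // Fails T m x} : ℚ) +
      (Nat.card {x : V × (Fin m → V) // Holds T m x} : ℚ) + (Fintype.card V : ℚ) *
      (Nat.card {b : Fin m → V // ¬ LinearIndependent (ZMod 2) b} : ℚ) := by
    have e0 : (Fintype.card V : ℚ) ^ (m + 1) = ∑ _x : V × (Fin m → V), (1 : ℚ) := by
      simp [pow_succ, mul_comm]
    have e1 : (Nat.card {x : V × (Fin m → V) // Fails T m x} : ℚ) =
        ∑ x : V × (Fin m → V), (if Fails T m x then (1 : ℚ) else 0) := by
      rw [Nat.card_eq_fintype_card, Fintype.card_subtype, Finset.sum_boole]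
    have e2 : (Nat.card {x : V × (Fin m → V) // Holds T m x} : ℚ) =
        ∑ x : V × (Fin m → V), (if Holds T m x then (1 : ℚ) else 0) := by
      rw [Nat.card_eq_fintype_card, Fintype.card_subtype, Finset.sum_boole]
    have e3 : (Fintype.card V : ℚ) *
        (Nat.card {b : Fin m → V // ¬ LinearIndependent (ZMod 2) b} : ℚ) =
        ∑ x : V × (Fin m → V), (if ¬ LinearIndependent (ZMod 2) x.2 then (1 : ℚ) else 0) := by
      rw [Fintype.sum_prod_type, Nat.card_eq_fintype_card, Fintype.card_subtype]
      simp only [Finset.sum_boole]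
      simp
    rw [e0, e1, e2, e3, ← Finset.sum_add_distrib, ← Finset.sum_add_distrib]
    refine Finset.sum_congr rfl fun x _ => ?_
    by_cases hi : LinearIndependent (ZMod 2) x.2
    · by_cases hp : Parity T x.1 (Submodule.span (ZMod 2) (Set.range x.2))
      · simp [Fails, Holds, hi, hp]
      · simp [Fails, Holds, hi, hp]
    · simp [Fails, Holds, hi]
  have h2 := dep_bound (V := V) m
  have h3 : (Nat.card {x : V × (Fin m → V) // Holds T m x} : ℚ) ≥
      (Fintype.card V : ℚ) ^ (m + 1) -
      (Nat.card {x : V × (Fin m → V) // Fails T m x} : ℚ) -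
      2 ^ m * (Fintype.card V : ℚ) ^ m := by
    have : (0 : ℚ) ≤ (Fintype.card V : ℚ) ^ m := by positivity
    linarith
  rw [holdShare, failShare, Nat.card_eq_fintype_card (α := V), le_div_iff₀ (by positivity)]
  have e : (1 - (Nat.card {x : V × (Fin m → V) // Fails T m x} : ℚ) /
      (Fintype.card V : ℚ) ^ (m + 1) - 2 ^ m / (Fintype.card V : ℚ)) *
      (Fintype.card V : ℚ) ^ (m + 1) = (Fintype.card V : ℚ) ^ (m + 1) -
      (Nat.card {x : V × (Fin m → V) // Fails T m x} : ℚ) -
      2 ^ m * (Fintype.card V : ℚ) ^ m := by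
    field_simp
    ring
  rw [e]
  exact h3

end Pool.Agent.K3h39.HT
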